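import Pool.Agent.Helper28.Tame.Transport

set_option autoImplicit false

namespace Pool.Agent.Results.MP_6d201a_al.CentralCyclicExtension

open Pool.Agent.Helper28.Tame

universe u

/-- Let `G` be a cyclic extension of the finitely presented locally tame group `H` (embedded by
`i`), and suppose that some element of the centre of `G` has infinite order modulo `H`. Then `G` is
finitely presented and locally tame. The case `G = H × ℤ` is spelled out below. -/
theorem result {H G : Type u} [Group H] [Group G] (i : H →* G) (hi : Function.Injective i)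
    [i.range.Normal] [IsCyclic (G ⧸ i.range)]
    (hz : ∃ z ∈ Subgroup.center G, ∀ n : ℕ, 0 < n → z ^ n ∉ i.range) (hH : IsLocallyTame H) :
    IsLocallyTame G := by
  obtain ⟨z, hz, hzn⟩ := hz
  exact locallyTame_of_extension i hi z hz hzn hH

/-- The direct product with `ℤ` is the case `i = (h ↦ (h, 0))`, `z = (1, 1)` of `result`. -/
theorem prod_int {H : Type u} [Group H] (hH : IsLocallyTame H) :
    IsLocallyTame (H × Multiplicative ℤ) := by
  have hrange : (MonoidHom.inl H (Multiplicative ℤ)).range =
      (MonoidHom.snd H (Multiplicative ℤ)).ker := by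
    ext ⟨h, n⟩
    constructor
    · rintro ⟨x, hx⟩
      rw [MonoidHom.mem_ker]
      exact (congrArg Prod.snd hx).symm
    · intro h1
      rw [MonoidHom.mem_ker] at h1
      exact ⟨h, Prod.ext rfl h1.symm⟩
  have hn : (MonoidHom.inl H (Multiplicative ℤ)).range.Normal := by
    rw [hrange]; infer_instance
  have hc : IsCyclic ((H × Multiplicative ℤ) ⧸ (MonoidHom.inl H (Multiplicative ℤ)).range) := by
    let e := QuotientGroup.quotientMulEquivOfEq hrange
    let e2 := QuotientGroup.quotientKerEquivOfSurjective (MonoidHom.snd H (Multiplicative ℤ))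
      (fun n => ⟨(1, n), rfl⟩)
    exact isCyclic_of_surjective (e.trans e2).symm (e.trans e2).symm.surjective
  refine result (MonoidHom.inl H (Multiplicative ℤ))
    (fun a b h => congrArg Prod.fst h) ⟨(1, Multiplicative.ofAdd 1), ?_, ?_⟩ hH
  · rw [Subgroup.mem_center_iff]
    rintro ⟨h, n⟩
    ext
    · simp
    · simp [mul_comm]
  · intro n hn0 h
    rw [hrange, MonoidHom.mem_ker] at h
    have h1 : (Multiplicative.ofAdd (1 : ℤ)) ^ n = 1 := h
    rw [← ofAdd_nsmul, ofAdd_eq_one] at h1
    simp at h1
    omega

end Pool.Agent.Results.MP_6d201a_al.CentralCyclicExtension
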